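import Pool.Agent.Q194.WCO.Strong
import Pool.Agent.Q194.WCO.Mix

/-!
# Chaotic weighted composition operators on `C^∞(Ω)` are mixing

Full answer (the statement of Q1 is true) to MP_07ea7a_an.

Proof. Let `T = C_{ω,ψ}` be chaotic. Transitivity gives a weight without zeros, an injective symbol and
an invertible derivative (otherwise the range of `T` lies in a closed hyperplane), and transitivity
together with the dense periodic points gives that `ψ` is run-away. Suppose `ψ` is not strongly
run-away: along an ultrafilter on `ℕ` there are `x_n → x`, `ψ^n x_n → y`. Take two periodic functions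
`f₁ ≈ 1`, `f₂ ≈ ‖· - y‖² / η²` near the ball `B(y, η)` and `x`, of common period `m`, and let `n` run
through one residue class `r` modulo `m`. As `T^n f_i = T^r f_i`, the quotient `f₂ / f₁` at `ψ^n u` is
the quotient `T^r f₂ / T^r f₁` at `u`; the denominator does not vanish at `x` because
`f₁(x) f₁(y) = T^r f₁(x) · T^{m-r} f₁(y)`. A clopen argument on a small ball around `x` shows that
`ψ^n x` lies in the connected component `A₀` of `y` in `{|f₂| < |f₁| / 2} ∩ B(y, η)` for many `n`; the
difference `q` of two such `n` is a multiple of `m`, and a second clopen argument gives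
`ψ^q (A₀) ⊆ A₀`, which contradicts the run-away property. Finally a strongly run-away symbol makes `T`
mixing, by gluing.
-/

set_option autoImplicit false

namespace Pool.Agent.Results.MP_07ea7a_an.ChaoticIsMixing

open Set Pool.Agent.Q194.WCO
open scoped ContDiff

/-- For every `d`, every open `Ω ⊆ ℝ^d`, every smooth weight `w : Ω → 𝕜` and every smooth symbol
`ψ : Ω → Ω`, if the weighted composition operator `f ↦ w · (f ∘ ψ)` on `C^∞(Ω, 𝕜)` is chaotic, then it
is mixing. -/
theorem result (𝕜 : Type) [RCLike 𝕜] (d : ℕ) (Ω : Set (E d)) (hΩ : IsOpen Ω) (w : E d → 𝕜)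
    (ψ : E d → E d) (hw : ContDiffOn ℝ ∞ w Ω) (hψ : ContDiffOn ℝ ∞ ψ Ω) (hm : MapsTo ψ Ω Ω)
    (hc : IsChaotic (op w ψ hw hψ hm)) : IsMixing (op w ψ hw hψ hm) := by
  have hw0 := weight_ne hw hψ hm hc.1
  refine mixing hw hψ hm hΩ hw0 (symbol_inj hw hψ hm hc.1) (fun x hx => ?_) fun K hK hKΩ => ?_
  · exact exists_equiv ((hψ.contDiffAt (hΩ.mem_nhds hx)).differentiableAt (by simp))
      (symbol_deriv_inj hw hψ hm hΩ hc.1 x hx)
  · exact strongly_runaway hw hψ hm hΩ hw0 hc.2
      (fun L hL hLΩ => runaway hw hψ hm hc hL hLΩ) hK hKΩ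

end Pool.Agent.Results.MP_07ea7a_an.ChaoticIsMixing
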